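import Pool.Agent.helper4.HL.Spec

set_option autoImplicit false

/-!
# Quantum cat maps at generic Planck mantissas: existence (EXI)
-/

open scoped BigOperators ComplexOrder ComplexConjugate Topology

namespace Pool.Agent.HL

open Pool.Agent.helper86.CM Pool.Agent.QS Filter MeasureTheory

noncomputable section

theorem EXI_floor (l X : ℝ) (hl : 1 < l) (hX : 0 < X) :
    Tendsto (fun j : ℕ => l ^ j / ((⌊l ^ j * X⌋₊ + 1 : ℕ) : ℝ)) atTop (𝓝 X⁻¹) := by
  have h1 : Tendsto (fun j : ℕ => (l ^ j)⁻¹) atTop (𝓝 0) := by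
    have := tendsto_pow_atTop_nhds_zero_of_lt_one (inv_nonneg.2 (by linarith : (0:ℝ) ≤ l))
      (inv_lt_one_of_one_lt₀ hl)
    simpa only [inv_pow] using this
  have h2 : Tendsto (fun j : ℕ => ((⌊l ^ j * X⌋₊ + 1 : ℕ) : ℝ) / l ^ j) atTop (𝓝 X) := by
    have hu : Tendsto (fun j : ℕ => X + (l ^ j)⁻¹) atTop (𝓝 X) := by
      simpa using h1.const_add X
    refine tendsto_of_tendsto_of_tendsto_of_le_of_le tendsto_const_nhds hu ?_ ?_
    · intro j
      have hp : 0 < l ^ j := pow_pos (by linarith) j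
      show X ≤ _
      rw [le_div_iff₀ hp]
      push_cast
      have := (Nat.lt_floor_add_one (l ^ j * X)).le
      linarith
    · intro j
      have hp : 0 < l ^ j := pow_pos (by linarith) j
      show _ ≤ X + (l ^ j)⁻¹
      rw [div_le_iff₀ hp]
      push_cast
      have := Nat.floor_le (by positivity : 0 ≤ l ^ j * X)
      rw [add_mul, inv_mul_cancel₀ hp.ne']
      linarith
  have h3 := h2.inv₀ hX.ne'
  refine h3.congr fun j => ?_
  rw [inv_div]

theorem EXI (hCAT : CAT_stmt) (hLUL : LUL_stmt) (hLUV : LUV_stmt) (hSTE : STE_stmt)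
    (hSTA : STA_stmt) : EXI_stmt := by
  intro A hA hth htr c F hc hF
  obtain ⟨B, hB, hBA⟩ := hCAT A hA hth htr
  obtain ⟨ν, hν, hinv, hFn⟩ := hF
  set t := A.trace with ht
  obtain ⟨⟨hl2, hlt, _⟩, _, _, _⟩ := hLUL t htr
  have hl0 : 0 < lam t := by linarith
  have hl1 : 1 < lam t := by linarith
  have hli : (lam t)⁻¹ < 1 := inv_lt_one_of_one_lt₀ hl1
  have hli0 : 0 < (lam t)⁻¹ := inv_pos.2 hl0
  have hd : 0 < lam t - (lam t)⁻¹ := by linarith
  set X : ℝ := ((lam t - (lam t)⁻¹) * c)⁻¹ with hX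
  have hX0 : 0 < X := by rw [hX]; positivity
  have hinv' : ∀ n, ∫ y, chr (B n) y ∂ν = ∫ y, chr n y ∂ν := by
    intro n
    rw [hBA]
    exact hinv n
  set Φ : PP → ℂ := fun z => 1 / 2 * (if z.2 = 0 then ∫ y, chr z.1 y ∂ν else 0) +
      1 / 2 * (if z.1 = 0 then ∫ y, chr z.2 y ∂ν else 0) with hΦ
  have hchr0 : ∫ y, chr (0 : Lat 1) y ∂ν = 1 := by
    have : ∀ y, chr (0 : Lat 1) y = 1 := by
      intro y
      simp [chr, UnitAddTorus.mFourier]
    simp [this]
  have hΦF : ∀ n, Φ (n, 0) = F n := by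
    intro n
    rw [hFn n]
    simp only [hΦ]
    by_cases hn : n = 0
    · subst hn
      simp [hchr0]
    · simp [hn]
  have hst := fun j : ℕ => hSTE A hA hth B t hB hBA (⌊(lam t) ^ j * X⌋₊ + 1) (by omega) Φ
    (hSTA B t hB _ ν hν hinv') (2 * j) j
  choose k N hN W hk hNk hW hWn using hst
  refine ⟨fun j => k j - j, N, hN, W, ?_, ?_, hW, ?_⟩
  · exact tendsto_atTop_mono (fun j => by have := hk j; show j ≤ k j - j; omega) tendsto_id
  · have hkey : ∀ j, (N j : ℝ) / lam t ^ (k j - j) =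
        ((lam t) ^ j / ((⌊(lam t) ^ j * X⌋₊ + 1 : ℕ) : ℝ)) *
          ((1 - ((lam t)⁻¹) ^ (2 * k j)) / (lam t - (lam t)⁻¹)) := by
      intro j
      have h1 : (((⌊(lam t) ^ j * X⌋₊ + 1 : ℕ) : ℝ)) * (N j : ℝ) = (lu t (k j) : ℝ) := by
        exact_mod_cast congrArg (fun z : ℤ => (z : ℝ)) (hNk j)
      have h2 := (hLUV B t hB).1 (k j)
      have hQ : (0 : ℝ) < ((⌊(lam t) ^ j * X⌋₊ + 1 : ℕ) : ℝ) := by positivity
      have h3 : lam t ^ (k j) = lam t ^ (k j - j) * lam t ^ j := by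
        rw [← pow_add]
        congr 1
        have := hk j
        omega
      have h4 : lam t ^ (k j) * ((lam t)⁻¹) ^ (2 * k j) = ((lam t)⁻¹) ^ (k j) := by
        rw [two_mul, pow_add, ← mul_assoc, ← mul_pow, mul_inv_cancel₀ hl0.ne', one_pow, one_mul]
      have h5 : (0 : ℝ) < lam t ^ (k j - j) := pow_pos hl0 _
      have h6 : (0 : ℝ) < lam t ^ j := pow_pos hl0 _
      rw [div_mul_div_comm, div_eq_div_iff h5.ne' (mul_pos hQ hd).ne']
      calc (N j : ℝ) * (((⌊(lam t) ^ j * X⌋₊ + 1 : ℕ) : ℝ) * (lam t - (lam t)⁻¹))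
          = (((⌊(lam t) ^ j * X⌋₊ + 1 : ℕ) : ℝ)) * (N j : ℝ) * (lam t - (lam t)⁻¹) := by ring
        _ = (lu t (k j) : ℝ) * (lam t - (lam t)⁻¹) := by rw [h1]
        _ = lam t ^ (k j) - ((lam t)⁻¹) ^ (k j) := h2
        _ = lam t ^ (k j) * (1 - ((lam t)⁻¹) ^ (2 * k j)) := by rw [mul_sub, mul_one, h4]
        _ = lam t ^ j * (1 - ((lam t)⁻¹) ^ (2 * k j)) * lam t ^ (k j - j) := by rw [h3]; ring
    have hlim1 := EXI_floor (lam t) X hl1 hX0
    have hk' : Tendsto (fun j => 2 * k j) atTop atTop :=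
      tendsto_atTop_mono (fun j => by have := hk j; show j ≤ 2 * k j; omega) tendsto_id
    have hlim2 : Tendsto (fun j => (1 - ((lam t)⁻¹) ^ (2 * k j)) / (lam t - (lam t)⁻¹)) atTop
        (𝓝 ((1 - 0) / (lam t - (lam t)⁻¹))) := by
      refine Tendsto.div_const ?_ _
      exact ((tendsto_pow_atTop_nhds_zero_of_lt_one hli0.le hli).comp hk').const_sub 1
    have hlim := hlim1.mul hlim2
    have hval : X⁻¹ * ((1 - 0) / (lam t - (lam t)⁻¹)) = c := by
      rw [hX, inv_inv, sub_zero, mul_comm (lam t - (lam t)⁻¹) c, mul_assoc,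
        mul_one_div_cancel hd.ne', mul_one]
    rw [hval] at hlim
    exact hlim.congr fun j => (hkey j).symm
  · intro n
    rw [tendsto_iff_norm_sub_tendsto_zero]
    refine squeeze_zero' (Eventually.of_forall fun j => norm_nonneg _) ?_
      tendsto_one_div_add_atTop_nhds_zero_nat
    obtain ⟨j0, hj0⟩ := exists_nat_ge ‖n‖
    filter_upwards [eventually_ge_atTop j0] with j hj
    rw [← hΦF n]
    exact hWn j n (hj0.trans (by exact_mod_cast hj))

end

end Pool.Agent.HL
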