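import Pool.Agent.helper4.HL.Spec

set_option autoImplicit false

/-!
# Quantum cat maps at generic Planck mantissas: one step (STE)
-/

open scoped BigOperators ComplexOrder ComplexConjugate Topology

namespace Pool.Agent.HL

open Pool.Agent.helper86.CM Pool.Agent.QS Filter MeasureTheory

noncomputable section

theorem STE_mem_box1 (R : ℕ) (n : Lat 1) (h : n ∈ box1 R) : ‖n‖ ≤ (R : ℝ) := by
  rw [box1, Fintype.mem_piFinset] at h
  rw [pi_norm_le_iff_of_nonneg (Nat.cast_nonneg R)]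
  intro i
  have h1 := h i
  rw [Finset.mem_Icc] at h1
  rw [Int.norm_eq_abs, abs_le]
  constructor
  · exact_mod_cast h1.1
  · exact_mod_cast h1.2

theorem STE_box1_mem (R : ℕ) (n : Lat 1) (h : ‖n‖ ≤ (R : ℝ)) : n ∈ box1 R := by
  rw [box1, Fintype.mem_piFinset]
  rw [pi_norm_le_iff_of_nonneg (Nat.cast_nonneg R)] at h
  intro i
  have h1 := h i
  rw [Int.norm_eq_abs, abs_le] at h1
  rw [Finset.mem_Icc]
  constructor
  · exact_mod_cast h1.1
  · exact_mod_cast h1.2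

/-- STE. -/
theorem STE (hPARQ : PARQ_stmt) (hWIGQ : WIGQ_stmt) : STE_stmt := by
  intro A hA hth B t hB hBA Q hQ Φ hΦ K j
  have hε : (0 : ℝ) < 1 / ((j : ℝ) + 1) := by positivity
  have hc : (0 : ℝ) < ((box1 j).card : ℝ) + 1 := by positivity
  obtain ⟨k, N, hN, m, w, hK, h1, hNk, hw, hs⟩ := hPARQ B t hB Q hQ Φ hΦ j K
    ((1 / ((j : ℝ) + 1)) ^ 2 / (((box1 j).card : ℝ) + 1)) (by positivity)
  obtain ⟨W, hW, hWn⟩ := hWIGQ A hA hth B t hB hBA Q k N h1 hNk (box1 j) (fun n => Φ (n, 0))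
    (1 / ((j : ℝ) + 1)) hε.le m w hw (by
      refine (Finset.sum_le_sum fun n hn => hs n (STE_mem_box1 j n hn)).trans ?_
      rw [Finset.sum_const, nsmul_eq_mul, mul_div_assoc', div_le_iff₀ hc]
      have h2 : (0 : ℝ) ≤ (1 / ((j : ℝ) + 1)) ^ 2 := by positivity
      nlinarith)
  exact ⟨k, N, hN, W, hK, hNk, hW, fun n hn => hWn n (STE_box1_mem j n hn)⟩

end

end Pool.Agent.HL
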